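import Pool.Agent.H25.Comb

set_option autoImplicit false

namespace Pool.Agent.Results.MP_1af0ac_pr.Comb

open Pool.Agent.H25.Comb

theorem result : ∃ (G : SimpleGraph (ℤ × ℕ)) (ν : ℤ × ℕ → ℤ × ℕ → ℝ) (π : PMF (ℤ × ℕ)),
    IsWeighted G ν ∧ IsStationary ν π ∧ PolyGrowth G π ∧
    ∀ ρ, ∃ h : ℕ → ℤ × ℕ → ℝ, LinearIndependent ℝ h ∧ ∀ j, h j ∈ Harm G ν ρ 3 :=
  ⟨G, nu, π0, weighted, stat, growth _, fun ρ => ⟨hh, hh_li, hh_mem ρ⟩⟩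

end Pool.Agent.Results.MP_1af0ac_pr.Comb
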